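import Pool.Agent.Y953.CA.Ht

/-!
# Conjugacy of measure distal transformations of height at most three is hard for analytic sets

`EMPT` is the space of ergodic Lebesgue measure preserving transformations of `[0,1]` modulo null
sets with the weak topology, `MD` the set of the measure distal ones and `Conj` measure conjugacy
(the definitions of the starting file `NoBorelCriterion`); `MDH n` is the set of the ergodic
transformations that are measure distal of height at most `n`: they are reached from the trivial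
factor by `n` isometric (compact) extensions (`DistalHt`).

Every analytic subset of the Baire space is the preimage of the conjugacy relation under a
continuous map whose values are pairs of measure distal transformations of height at most three;
every analytic subset of any Polish space is such a preimage under a Borel map. So conjugacy
agrees with no Borel set, and even with no coanalytic set, on the pairs of measure distal
transformations of height at most three, and it is not Borel reducible to any coanalytic (in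
particular to any Borel) relation on a Polish space, even on the transformations of height at most
three.
-/

set_option autoImplicit false

namespace Pool.Agent.Results.MP_78c86a_lc.AnalyticHard

open Filter Topology Set MeasureTheory
open Pool.Agent.Results.MP_1b52a3_lc.NoBorelReduction (Aut)
open Pool.Agent.Results.MP_78c86a_lc.NoBorelCriterion (lam EMPT MD Conj pt pt_MD continuous_pt
  conj_iff)
open Pool.Agent.Y953.CA

theorem conj_IG (e : Pool.Agent.W922.Dis.X ≃ᵐ unitInterval)
    (he : MeasurePreserving e Pool.Agent.W922.MD.mu lam) (τ : List ℕ → Bool) :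
    Conj (pt e he τ 1) (pt e he τ 0) ↔ τ ∈ IG := by
  rw [conj_iff, Pool.Agent.W922.Dis.conj_iff]
  rfl

/-- Preimages of analytic sets under Borel maps are analytic. -/
theorem analytic_preimage {X Z : Type} [t : TopologicalSpace X] [PolishSpace X] [MeasurableSpace X]
    [BorelSpace X] [TopologicalSpace Z] [PolishSpace Z] [MeasurableSpace Z] [BorelSpace Z]
    {f : X → Z} (hf : Measurable f) {s : Set Z} (hs : AnalyticSet s) : AnalyticSet (f ⁻¹' s) := by
  obtain ⟨t', hle, hc, hp⟩ := hf.exists_continuous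
  have h1 : @AnalyticSet X t' (f ⁻¹' s) := @AnalyticSet.preimage X Z t' _ hp _ s hs f hc
  have h2 : @Continuous X X t' t id := continuous_id_iff_le.2 hle
  have h3 : @AnalyticSet X t (id '' (f ⁻¹' s)) :=
    @AnalyticSet.image_of_continuous X t' X t _ h1 id h2
  rwa [image_id] at h3

/-- **Conjugacy of measure distal transformations of height at most three is hard for analytic
sets.** -/
theorem result :
    -- continuous reductions of the analytic subsets of the Baire space
    (∀ A : Set (ℕ → ℕ), AnalyticSet A → ∃ Φ : (ℕ → ℕ) → EMPT × EMPT, Continuous Φ ∧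
      (∀ x, MDH 3 (Φ x).1 ∧ MDH 3 (Φ x).2) ∧ ∀ x, x ∈ A ↔ Conj (Φ x).1 (Φ x).2) ∧
    -- Borel reductions of the analytic subsets of Polish spaces
    (∀ (P : Type) [TopologicalSpace P] [PolishSpace P] [MeasurableSpace P] [BorelSpace P]
      (A : Set P), AnalyticSet A → ∃ Φ : P → EMPT × EMPT,
      @Measurable P (EMPT × EMPT) _ (borel (EMPT × EMPT)) Φ ∧
      (∀ x, MDH 3 (Φ x).1 ∧ MDH 3 (Φ x).2) ∧ ∀ x, x ∈ A ↔ Conj (Φ x).1 (Φ x).2) ∧
    -- there is no coanalytic criterion
    (¬ ∃ B : Set (EMPT × EMPT), AnalyticSet Bᶜ ∧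
      ∀ S T : EMPT, MDH 3 S → MDH 3 T → ((S, T) ∈ B ↔ Conj S T)) ∧
    -- there is no Borel reduction to a coanalytic relation
    (∀ (Y : Type) [TopologicalSpace Y] [PolishSpace Y] [MeasurableSpace Y] [BorelSpace Y]
      (c : EMPT → Y) (E : Set (Y × Y)), @Measurable EMPT Y (borel EMPT) _ c → AnalyticSet Eᶜ →
      ¬ ∀ S T : EMPT, MDH 3 S → MDH 3 T → ((c S, c T) ∈ E ↔ Conj S T)) ∧
    -- transformations of finite height are measure distal
    (∀ (n : ℕ) (S : EMPT), MDH n S → MD S) ∧
    -- the question: there is no Borel criterion for measure distal transformations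
    (¬ ∃ B : Set (EMPT × EMPT), @MeasurableSet (EMPT × EMPT) (borel (EMPT × EMPT)) B ∧
      ∀ S T : EMPT, MD S → MD T → ((S, T) ∈ B ↔ Conj S T)) := by
  obtain ⟨e, he⟩ := Pool.Agent.Helper212.Sq.exists_mp_equiv Pool.Agent.W922.MD.mu
  let Φ : (List ℕ → Bool) → EMPT × EMPT := fun τ => (pt e he τ 1, pt e he τ 0)
  have hΦ : Continuous Φ := (continuous_pt e he 1).prodMk (continuous_pt e he 0)
  have hd : ∀ τ, MDH 3 (Φ τ).1 ∧ MDH 3 (Φ τ).2 := fun τ => ⟨pt_MDH e he τ 1, pt_MDH e he τ 0⟩
  have hC : ∀ τ, τ ∈ IG ↔ Conj (Φ τ).1 (Φ τ).2 := fun τ => (conj_IG e he τ).symm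
  have _ : T2Space (Aut lam) := t2_aut
  have _ : PolishSpace (List ℕ → Bool) := {}
  have p3 : ¬ ∃ B : Set (EMPT × EMPT), AnalyticSet Bᶜ ∧
      ∀ S T : EMPT, MDH 3 S → MDH 3 T → ((S, T) ∈ B ↔ Conj S T) := by
    rintro ⟨B, hB, h⟩
    apply IG_not_coanalytic
    have h1 : (IGᶜ : Set (List ℕ → Bool)) = Φ ⁻¹' Bᶜ := by
      ext τ
      rw [mem_compl_iff, hC, ← h _ _ (hd τ).1 (hd τ).2]
      rfl
    rw [h1]
    exact hB.preimage hΦ
  have p4 : ¬ ∃ B : Set (EMPT × EMPT), @MeasurableSet (EMPT × EMPT) (borel (EMPT × EMPT)) B ∧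
      ∀ S T : EMPT, MDH 3 S → MDH 3 T → ((S, T) ∈ B ↔ Conj S T) := by
    rintro ⟨B, hB, h⟩
    apply IG_not_coanalytic
    have h1 : (IGᶜ : Set (List ℕ → Bool)) = Φ ⁻¹' Bᶜ := by
      ext τ
      rw [mem_compl_iff, hC, ← h _ _ (hd τ).1 (hd τ).2]
      rfl
    have h2 : @MeasurableSet (List ℕ → Bool) (borel (List ℕ → Bool)) (Φ ⁻¹' Bᶜ) := by
      let _ : MeasurableSpace (List ℕ → Bool) := borel _
      have _ : BorelSpace (List ℕ → Bool) := ⟨rfl⟩
      let _ : MeasurableSpace (EMPT × EMPT) := borel _
      have _ : BorelSpace (EMPT × EMPT) := ⟨rfl⟩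
      exact hΦ.measurable hB.compl
    rw [h1]
    let _ : MeasurableSpace (List ℕ → Bool) := borel _
    have _ : BorelSpace (List ℕ → Bool) := ⟨rfl⟩
    exact MeasurableSet.analyticSet h2
  refine ⟨?_, ?_, p3, ?_, fun n S h => h.md, ?_⟩
  · intro A hA
    obtain ⟨τ, hτ, h⟩ := codes_baire A hA
    exact ⟨fun x => Φ (τ x), hΦ.comp hτ, fun x => hd _, fun x => (h x).trans (hC _)⟩
  · intro P _ _ _ _ A hA
    obtain ⟨τ, hτ, h⟩ := codes_polish A hA
    refine ⟨fun x => Φ (τ x), ?_, fun x => hd _, fun x => (h x).trans (hC _)⟩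
    let _ : MeasurableSpace (EMPT × EMPT) := borel _
    have _ : BorelSpace (EMPT × EMPT) := ⟨rfl⟩
    exact hΦ.measurable.comp hτ
  · intro Y _ _ _ _ c E hc hE h
    apply IG_not_coanalytic
    have h1 : (IGᶜ : Set (List ℕ → Bool)) = (fun τ => (c (Φ τ).1, c (Φ τ).2)) ⁻¹' Eᶜ := by
      ext τ
      rw [mem_compl_iff, hC, ← h _ _ (hd τ).1 (hd τ).2]
      rfl
    rw [h1]
    let _ : MeasurableSpace EMPT := borel _
    have _ : BorelSpace EMPT := ⟨rfl⟩
    have h2 : ∀ b : ℤ, Measurable fun τ : List ℕ → Bool => c (pt e he τ b) := fun b =>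
      hc.comp (continuous_pt e he b).measurable
    exact analytic_preimage ((h2 1).prodMk (h2 0)) hE
  · rintro ⟨B, hB, h⟩
    exact p4 ⟨B, hB, fun S T hS hT => h S T hS.md hT.md⟩

end Pool.Agent.Results.MP_78c86a_lc.AnalyticHard
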